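import Mathlib
import Pool.Agent.Lib.MP_fffc5a_co.Upper
import Pool.Agent.Lib.MP_fffc5a_co.DefsC
import Pool.Agent.Lib.MP_fffc5a_co.CodeLower
import Pool.Agent.Lib.MP_fffc5a_co.Transfer
import Pool.Agent.Lib.MP_fffc5a_co.CodeVal
import Pool.Agent.Lib.MP_fffc5a_co.CodeThree
import Pool.Agent.Lib.MP_fffc5a_co.UpperCode

/-!
The coding formula for `(u, v)`-union-intersecting families: for `u ≥ 2`, large `k` and all
`n ≥ 2k + C √(k log k)` the maximum size is `C(n-1,k-1) + A_u(n,k)`, where `A_u(n,k)` is the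
maximum size of a family of `k`-subsets of an `(n-1)`-set in which any `u` distinct members have a
union of size at least `n - k`.
-/

set_option autoImplicit false

open Finset

namespace Pool.Agent.Results.MP_fffc5a_co.CodeFormula

open Pool.Agent.Lib.MP_fffc5a_co

/-- `F` is `(u, v)`-union-intersecting: the union of any `u` distinct members meets the union of
any `v` distinct members. -/
def UnionIntersecting {n : ℕ} (u v : ℕ) (F : Finset (Finset (Fin n))) : Prop :=
  ∀ A ⊆ F, ∀ B ⊆ F, A.card = u → B.card = v → ((A.biUnion id) ∩ (B.biUnion id)).Nonempty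

/-- `m n k u v` is the maximum size of a `(u, v)`-union-intersecting family of `k`-element subsets
of an `n`-element set. -/
noncomputable def m (n k u v : ℕ) : ℕ :=
  sSup {c : ℕ | ∃ F : Finset (Finset (Fin n)),
    (∀ s ∈ F, s.card = k) ∧ UnionIntersecting u v F ∧ F.card = c}

/-- `A u n k` is the maximum size of a family of `k`-element subsets of an `(n - 1)`-element set in
which the union of any `u` distinct members has at least `n - k` elements. For `u = 2` this is the
maximum size of a constant weight code of length `n - 1`, weight `k` and distance at least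
`2 (n - 2 k)`. -/
noncomputable def A (u n k : ℕ) : ℕ :=
  sSup {c : ℕ | ∃ E : Finset (Finset (Fin (n - 1))),
    (∀ s ∈ E, s.card = k) ∧ (∀ T ⊆ E, T.card = u → n - k ≤ (T.biUnion id).card) ∧ E.card = c}

lemma unionIntersecting_iff {n u v : ℕ} {F : Finset (Finset (Fin n))} :
    UnionIntersecting u v F ↔ UI u v F := by
  unfold UnionIntersecting UI
  simp only [not_disjoint_iff_nonempty_inter]

lemma bddAbove_m (n k u v : ℕ) : BddAbove {c : ℕ | ∃ F : Finset (Finset (Fin n)),
    (∀ s ∈ F, s.card = k) ∧ UnionIntersecting u v F ∧ F.card = c} := by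
  refine ⟨Fintype.card (Finset (Fin n)), ?_⟩
  rintro c ⟨F, -, -, rfl⟩
  exact card_le_univ F

lemma bddAbove_A (u n k : ℕ) : BddAbove {c : ℕ | ∃ E : Finset (Finset (Fin (n - 1))),
    (∀ s ∈ E, s.card = k) ∧ (∀ T ⊆ E, T.card = u → n - k ≤ (T.biUnion id).card) ∧
      E.card = c} := by
  refine ⟨Fintype.card (Finset (Fin (n - 1))), ?_⟩
  rintro c ⟨F, -, -, rfl⟩
  exact card_le_univ F

lemma le_m {n k u v : ℕ} {F : Finset (Finset (Fin n))} (h1 : ∀ s ∈ F, s.card = k)
    (h2 : UnionIntersecting u v F) : F.card ≤ m n k u v :=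
  le_csSup (bddAbove_m n k u v) ⟨F, h1, h2, rfl⟩

lemma exists_m {n k u v : ℕ} (hu : 1 ≤ u) : ∃ F : Finset (Finset (Fin n)),
    (∀ s ∈ F, s.card = k) ∧ UnionIntersecting u v F ∧ F.card = m n k u v := by
  refine Nat.sSup_mem (s := {c : ℕ | ∃ F : Finset (Finset (Fin n)),
    (∀ s ∈ F, s.card = k) ∧ UnionIntersecting u v F ∧ F.card = c}) ⟨0, ∅, by simp, ?_, by simp⟩
    (bddAbove_m n k u v)
  intro A hA B _ hAu _
  rw [subset_empty.1 hA, card_empty] at hAu
  omega

lemma le_A {u n k : ℕ} {E : Finset (Finset (Fin (n - 1)))} (h1 : ∀ s ∈ E, s.card = k)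
    (h2 : ∀ T ⊆ E, T.card = u → n - k ≤ (T.biUnion id).card) : E.card ≤ A u n k :=
  le_csSup (bddAbove_A u n k) ⟨E, h1, h2, rfl⟩

lemma exists_A {u n k : ℕ} (hu : 1 ≤ u) : ∃ E : Finset (Finset (Fin (n - 1))),
    (∀ s ∈ E, s.card = k) ∧ (∀ T ⊆ E, T.card = u → n - k ≤ (T.biUnion id).card) ∧
      E.card = A u n k := by
  refine Nat.sSup_mem (s := {c : ℕ | ∃ E : Finset (Finset (Fin (n - 1))),
    (∀ s ∈ E, s.card = k) ∧ (∀ T ⊆ E, T.card = u → n - k ≤ (T.biUnion id).card) ∧
      E.card = c}) ⟨0, ∅, by simp, ?_, by simp⟩ (bddAbove_A u n k)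
  intro T hT hTu
  rw [subset_empty.1 hT, card_empty] at hTu
  omega

/-- The lower bound, for all parameters. -/
theorem lower {n k u v : ℕ} (hk : 1 ≤ k) (hn : 1 ≤ n) (hu : 2 ≤ u) (huv : u ≤ v) :
    (n - 1).choose (k - 1) + A u n k ≤ m n k u v := by
  obtain ⟨E, h1, h2, h3⟩ := exists_A (u := u) (n := n) (k := k) (by omega)
  have hx : (⟨0, by omega⟩ : Fin n) ∈ (univ : Finset (Fin n)) := mem_univ _
  obtain ⟨E', h4, h5, h6⟩ := code_transfer (u := u) (w := n - k) (k := k)
    (Y := (univ : Finset (Fin (n - 1)))) (Z := (univ : Finset (Fin n)).erase ⟨0, by omega⟩)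
    (by rw [card_erase_of_mem hx, card_univ, card_univ, Fintype.card_fin, Fintype.card_fin])
    (E := E) (fun s hs => ⟨subset_univ _, h1 s hs⟩) h2
  obtain ⟨F, h7, h8, h9⟩ := code_lower (α := Fin n) (u := u) (v := v) hk hu huv
    (x := ⟨0, by omega⟩) (E := E')
    (fun s hs => ⟨(h4 s hs).2, fun h => (mem_erase.1 ((h4 s hs).1 h)).1 rfl⟩)
    (by rw [Fintype.card_fin]; exact h5)
  rw [Fintype.card_fin, h6, h3] at h9
  rw [← h9]
  exact le_m h7 (unionIntersecting_iff.2 h8)

/-- A family of `k`-sets avoiding a point of `Fin n` in which `u` distinct members have a union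
with `n - k` elements has at most `A u n k` members. -/
theorem card_le_A {n k u : ℕ} (x : Fin n) {E : Finset (Finset (Fin n))}
    (hE : ∀ s ∈ E, s.card = k ∧ x ∉ s) (hW : Wide u (n - k) E) : E.card ≤ A u n k := by
  obtain ⟨E', h4, h5, h6⟩ := code_transfer (u := u) (w := n - k) (k := k)
    (Z := (univ : Finset (Fin (n - 1)))) (Y := (univ : Finset (Fin n)).erase x)
    (by rw [card_erase_of_mem (mem_univ x), card_univ, card_univ, Fintype.card_fin,
      Fintype.card_fin])
    (E := E) (fun s hs => ⟨fun y hy => mem_erase.2 ⟨fun h => (hE s hs).2 (h ▸ hy), mem_univ _⟩,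
      (hE s hs).1⟩) hW
  rw [← h6]
  exact le_A (fun s hs => (h4 s hs).2) h5

theorem A_of_lt {n k u : ℕ} (hu : 2 ≤ u) (huk : u ≤ k) (hn : (u + 1) * k < n) :
    A u n k = u - 1 := by
  have hukk : (u + 1) * k = u * k + k := by ring
  have h2k : 2 * k ≤ u * k := Nat.mul_le_mul_right k hu
  apply le_antisymm
  · obtain ⟨E, h1, h2, h3⟩ := exists_A (u := u) (n := n) (k := k) (by omega)
    rw [← h3]
    exact code_card_lt (w := n - k) h1 h2 (by omega)
  · obtain ⟨E, h1, h2, -⟩ := code_exists (u := u) (k := k) (by omega) huk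
      (Y := (univ : Finset (Fin (n - 1)))) (by rw [card_univ, Fintype.card_fin]; omega)
    obtain ⟨E', h3, h4⟩ := exists_subset_card_eq (show u - 1 ≤ E.card by omega)
    rw [← h4]
    refine le_A (fun s hs => (h1 s (h3 hs)).2) (fun T hT hTu => ?_)
    have h5 := card_le_card hT
    omega

theorem le_A_of_le {n k u : ℕ} (hu : 2 ≤ u) (huk : u ≤ k) (hn : 2 * k ≤ n)
    (hn' : n ≤ (u + 1) * k) : u ≤ A u n k := by
  have hukk : (u + 1) * k = u * k + k := by ring
  obtain ⟨E, h1, h2, h3⟩ := code_exists (u := u) (k := k) (by omega) huk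
    (Y := (univ : Finset (Fin (n - 1)))) (by rw [card_univ, Fintype.card_fin]; omega)
  rw [card_univ, Fintype.card_fin] at h3
  refine h2.symm.le.trans (le_A (fun s hs => (h1 s hs).2) (fun T hT hTu => ?_))
  refine le_trans ?_ (h3 T hT hTu)
  omega

theorem A_of_eq {n k u : ℕ} (hu : 2 ≤ u) (huk : u ≤ k) (hn : n = (u + 1) * k) :
    A u n k = u := by
  have hukk : (u + 1) * k = u * k + k := by ring
  have h2k : 2 * k ≤ u * k := Nat.mul_le_mul_right k hu
  apply le_antisymm
  · obtain ⟨E, h1, h2, h3⟩ := exists_A (u := u) (n := n) (k := k) (by omega)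
    rw [← h3]
    refine code_card_eq (u := u) (k := k) hu (by omega) (Y := (univ : Finset (Fin (n - 1))))
      (by rw [card_univ, Fintype.card_fin]; omega) (fun s hs => ⟨subset_univ _, h1 s hs⟩) ?_
    have h4 : u * k = n - k := by omega
    rw [h4]
    exact h2
  · exact le_A_of_le hu huk (by omega) hn.le

theorem A_two_three {n k : ℕ} (hk : 1 ≤ k) (hn : 14 * k ≤ 5 * n) (hn' : n < 3 * k) :
    A 2 n k = 3 := by
  apply le_antisymm
  · obtain ⟨E, h1, h2, h3⟩ := exists_A (u := 2) (n := n) (k := k) (by omega)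
    rw [← h3]
    exact code_three_le (n := n) (k := k) hk hn (Y := (univ : Finset (Fin (n - 1))))
      (by rw [card_univ, Fintype.card_fin]; omega) (fun s hs => ⟨subset_univ _, h1 s hs⟩) h2
  · obtain ⟨E, h1, h2, h3⟩ := code_three_exists (n := n) (k := k) (by omega) hn'
    exact h2.symm.le.trans (le_A h1 h3)

/-- `C √(k log k) ≤ k` for large `k`. -/
theorem sqrt_le (C : ℝ) : ∃ k₀ : ℕ, ∀ k : ℕ, k₀ ≤ k → C * Real.sqrt (k * Real.log k) ≤ k := by
  have h1 := (Real.isLittleO_log_id_atTop.comp_tendsto tendsto_natCast_atTop_atTop).bound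
    (show (0 : ℝ) < 1 / (C ^ 2 + 1) by positivity)
  obtain ⟨k₀, hk₀⟩ := Filter.eventually_atTop.1 h1
  refine ⟨k₀, fun k hk => ?_⟩
  have h2 := hk₀ k hk
  simp only [Function.comp_apply, id_eq, Real.norm_eq_abs] at h2
  have hlog : 0 ≤ Real.log k := Real.log_natCast_nonneg k
  have hk0 : (0 : ℝ) ≤ k := Nat.cast_nonneg k
  rw [abs_of_nonneg hlog, abs_of_nonneg hk0] at h2
  have h3 : (C ^ 2 + 1) * Real.log k ≤ k := by
    have h4 : (C ^ 2 + 1) * Real.log k ≤ (C ^ 2 + 1) * (1 / (C ^ 2 + 1) * k) :=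
      mul_le_mul_of_nonneg_left h2 (by positivity)
    have h5 : (C ^ 2 + 1) * (1 / (C ^ 2 + 1) * k) = k := by
      field_simp
    linarith
  have h6 : C ^ 2 * (k * Real.log k) ≤ (k : ℝ) ^ 2 := by nlinarith
  have h7 : C * Real.sqrt (k * Real.log k) ≤ |C| * Real.sqrt (k * Real.log k) :=
    mul_le_mul_of_nonneg_right (le_abs_self C) (Real.sqrt_nonneg _)
  refine h7.trans (abs_le_of_sq_le_sq' ?_ hk0).2
  rw [mul_pow, sq_abs, Real.sq_sqrt (mul_nonneg hk0 hlog)]
  exact h6

/-- For every `u ≥ 2` there are `C` and `k₀` such that for all `k ≥ k₀`, all `v` with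
`u ≤ v ≤ k / 2` and all `n ≥ 2k + C √(k log k)`: `m(n,k,u,v) = C(n-1,k-1) + A_u(n,k)`; here
`C √(k log k) ≤ k`, so the range contains all `n ≥ 3k`. Moreover `m(n,k,u,v) ≥ C(n-1,k-1) + A_u(n,k)`
for all `n ≥ 2k`, and `A_u(n,k) = u - 1` if `n > (u+1)k`, `A_u(n,k) = u` if `n = (u+1)k`,
`A_u(n,k) ≥ u` if `2k ≤ n ≤ (u+1)k`, and `A_2(n,k) = 3` if `14k/5 ≤ n < 3k`. -/
theorem result (u : ℕ) (hu : 2 ≤ u) : ∃ (C : ℝ) (k₀ : ℕ), ∀ k, k₀ ≤ k →
    C * Real.sqrt (k * Real.log k) ≤ k ∧ ∀ n : ℕ,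
    (∀ v, u ≤ v → 2 * v ≤ k → 2 * (k : ℝ) + C * Real.sqrt (k * Real.log k) ≤ n →
      m n k u v = (n - 1).choose (k - 1) + A u n k) ∧
    (∀ v, u ≤ v → 2 * k ≤ n → (n - 1).choose (k - 1) + A u n k ≤ m n k u v) ∧
    ((u + 1) * k < n → A u n k = u - 1) ∧
    (n = (u + 1) * k → A u n k = u) ∧
    (2 * k ≤ n → n ≤ (u + 1) * k → u ≤ A u n k) ∧
    (u = 2 → 14 * k ≤ 5 * n → n < 3 * k → A u n k = 3) := by
  obtain ⟨k₁, h1⟩ := upper u hu
  obtain ⟨C, k₂, hC1, h2⟩ := upper_code u hu
  obtain ⟨k₃, h0⟩ := sqrt_le C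
  refine ⟨C, max k₃ (max (max k₁ k₂) (u + 1)), fun k hk' => ⟨h0 k (le_trans (le_max_left _ _) hk'),
    ?_⟩⟩
  have hk : max (max k₁ k₂) (u + 1) ≤ k := le_trans (le_max_right _ _) hk'
  refine fun n => ⟨fun v huv hvk hn => ?_, fun v huv hn => ?_,
    fun hn => ?_, fun hn => ?_, fun hn hn' => ?_, fun hu2 hn hn' => ?_⟩
  · have hk1 : k₁ ≤ k := le_trans (le_max_left _ _) (le_trans (le_max_left _ _) hk)
    have hk2 : k₂ ≤ k := le_trans (le_max_right _ _) (le_trans (le_max_left _ _) hk)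
    have hk3 : u + 1 ≤ k := le_trans (le_max_right _ _) hk
    have hukk : (u + 1) * k = u * k + k := by ring
    have h2k : 2 * k ≤ u * k := Nat.mul_le_mul_right k hu
    have hlog : 0 ≤ Real.log k := Real.log_natCast_nonneg k
    have hkl : 0 ≤ (k : ℝ) * Real.log k := mul_nonneg (Nat.cast_nonneg k) hlog
    have hs0 : 0 ≤ Real.sqrt (k * Real.log k) := Real.sqrt_nonneg _
    have hCr : (1 : ℝ) ≤ C := by exact_mod_cast hC1
    have hn2 : 2 * k ≤ n := by
      have h3 : 2 * (k : ℝ) ≤ n := by nlinarith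
      exact_mod_cast h3
    apply le_antisymm
    · obtain ⟨F, hF, hUI, hFc⟩ := exists_m (n := n) (k := k) (u := u) (v := v) (by omega)
      rw [← hFc]
      rcases Nat.lt_or_ge ((u + 1) * k) n with hlt | hge
      · have h3 := h1 k hk1 v huv hvk n hlt.le F hF (unionIntersecting_iff.1 hUI)
        rw [if_pos hlt] at h3
        rw [A_of_lt hu (by omega) hlt]
        exact h3
      · obtain ⟨a, rfl⟩ : ∃ a, n = 2 * k + a := ⟨n - 2 * k, by omega⟩
        have ha : a ≤ (u - 1) * k := by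
          have h3 : (u + 1) * k = (u - 1) * k + 2 * k := by
            rw [← add_mul]
            congr 1
            omega
          omega
        have hCa : (C : ℝ) * (k * Real.log k) ≤ (a : ℝ) ^ 2 := by
          push_cast at hn
          have h3 : (C : ℝ) * Real.sqrt (k * Real.log k) ≤ a := by linarith
          have h4 : 0 ≤ (C : ℝ) * Real.sqrt (k * Real.log k) := by positivity
          have h5 : ((C : ℝ) * Real.sqrt (k * Real.log k)) ^ 2 ≤ (a : ℝ) ^ 2 :=
            pow_le_pow_left₀ h4 h3 2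
          rw [mul_pow, Real.sq_sqrt hkl] at h5
          have h6 : (C : ℝ) * (k * Real.log k) ≤ (C : ℝ) ^ 2 * (k * Real.log k) := by
            apply mul_le_mul_of_nonneg_right _ hkl
            nlinarith
          linarith
        obtain ⟨x, E₀, h3, h4, h5⟩ := h2 k hk2 v huv hvk a ha hCa F hF
          (unionIntersecting_iff.1 hUI)
        have h6 : 2 * k + a - k = k + a := by omega
        have h7 := card_le_A (n := 2 * k + a) (k := k) (u := u) x h3 (by rw [h6]; exact h4)
        omega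
    · exact lower (by omega) (by omega) hu huv
  · have hk3 : u + 1 ≤ k := le_trans (le_max_right _ _) hk
    exact lower (by omega) (by omega) hu huv
  · have hk3 : u + 1 ≤ k := le_trans (le_max_right _ _) hk
    exact A_of_lt hu (by omega) hn
  · have hk3 : u + 1 ≤ k := le_trans (le_max_right _ _) hk
    exact A_of_eq hu (by omega) hn
  · have hk3 : u + 1 ≤ k := le_trans (le_max_right _ _) hk
    exact le_A_of_le hu (by omega) hn hn'
  · have hk3 : u + 1 ≤ k := le_trans (le_max_right _ _) hk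
    subst hu2
    exact A_two_three (by omega) hn hn'

end Pool.Agent.Results.MP_fffc5a_co.CodeFormula
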