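import Mathlib
import Pool.Agent.Lib.MP_fffc5a_co.Upper
import Pool.Agent.Lib.MP_fffc5a_co.Deg
import Pool.Agent.Lib.MP_fffc5a_co.Lower
import Pool.Agent.Lib.MP_fffc5a_co.DefsC
import Pool.Agent.Lib.MP_fffc5a_co.CodeLower
import Pool.Agent.Lib.MP_fffc5a_co.Transfer
import Pool.Agent.Lib.MP_fffc5a_co.CodeVal
import Pool.Agent.Lib.MP_fffc5a_co.UpperCode
import Pool.Agent.Lib.MP_fffc5a_co.UpperSmall
import Pool.Agent.Lib.MP_fffc5a_co.UpperConst
import Pool.Agent.Lib.MP_fffc5a_co.CodeThree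
import Pool.Agent.Lib.MP_fffc5a_co.BalTwo

/-!
The coding formula for `(u, v)`-union-intersecting families for fixed `1 ≤ u ≤ v`, all large `k` and
all `n ≥ 2k + u + 1`: the maximum size is `C(n-1,k-1) + A_u(n,k)`, where `A_u(n,k)` is the maximum
size of a family of `k`-subsets of an `(n-1)`-set in which any `u` distinct members have a union of
size at least `n - k`. For `u = 2` the remaining `n` are settled as well.
-/

set_option autoImplicit false

open Finset

namespace Pool.Agent.Results.MP_fffc5a_co.LargeKComplete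

open Pool.Agent.Lib.MP_fffc5a_co

/-- `F` is `(u, v)`-union-intersecting: the union of any `u` distinct members meets the union of
any `v` distinct members. -/
def UnionIntersecting {n : ℕ} (u v : ℕ) (F : Finset (Finset (Fin n))) : Prop :=
  ∀ A ⊆ F, ∀ B ⊆ F, A.card = u → B.card = v → ((A.biUnion id) ∩ (B.biUnion id)).Nonempty

/-- `m n k u v` is the maximum size of a `(u, v)`-union-intersecting family of `k`-element subsets
of an `n`-element set. -/
noncomputable def m (n k u v : ℕ) : ℕ :=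
  sSup {c : ℕ | ∃ F : Finset (Finset (Fin n)),
    (∀ s ∈ F, s.card = k) ∧ UnionIntersecting u v F ∧ F.card = c}

/-- `A u n k` is the maximum size of a family of `k`-element subsets of an `(n - 1)`-element set in
which the union of any `u` distinct members has at least `n - k` elements. For `u = 2` this is the
maximum size of a constant weight code of length `n - 1`, weight `k` and distance at least
`2 (n - 2 k)`. -/
noncomputable def A (u n k : ℕ) : ℕ :=
  sSup {c : ℕ | ∃ E : Finset (Finset (Fin (n - 1))),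
    (∀ s ∈ E, s.card = k) ∧ (∀ T ⊆ E, T.card = u → n - k ≤ (T.biUnion id).card) ∧ E.card = c}

lemma unionIntersecting_iff {n u v : ℕ} {F : Finset (Finset (Fin n))} :
    UnionIntersecting u v F ↔ UI u v F := by
  unfold UnionIntersecting UI
  simp only [not_disjoint_iff_nonempty_inter]

lemma bddAbove_m (n k u v : ℕ) : BddAbove {c : ℕ | ∃ F : Finset (Finset (Fin n)),
    (∀ s ∈ F, s.card = k) ∧ UnionIntersecting u v F ∧ F.card = c} := by
  refine ⟨Fintype.card (Finset (Fin n)), ?_⟩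
  rintro c ⟨F, -, -, rfl⟩
  exact card_le_univ F

lemma bddAbove_A (u n k : ℕ) : BddAbove {c : ℕ | ∃ E : Finset (Finset (Fin (n - 1))),
    (∀ s ∈ E, s.card = k) ∧ (∀ T ⊆ E, T.card = u → n - k ≤ (T.biUnion id).card) ∧
      E.card = c} := by
  refine ⟨Fintype.card (Finset (Fin (n - 1))), ?_⟩
  rintro c ⟨F, -, -, rfl⟩
  exact card_le_univ F

lemma le_m {n k u v : ℕ} {F : Finset (Finset (Fin n))} (h1 : ∀ s ∈ F, s.card = k)
    (h2 : UnionIntersecting u v F) : F.card ≤ m n k u v :=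
  le_csSup (bddAbove_m n k u v) ⟨F, h1, h2, rfl⟩

lemma exists_m {n k u v : ℕ} (hu : 1 ≤ u) : ∃ F : Finset (Finset (Fin n)),
    (∀ s ∈ F, s.card = k) ∧ UnionIntersecting u v F ∧ F.card = m n k u v := by
  refine Nat.sSup_mem (s := {c : ℕ | ∃ F : Finset (Finset (Fin n)),
    (∀ s ∈ F, s.card = k) ∧ UnionIntersecting u v F ∧ F.card = c}) ⟨0, ∅, by simp, ?_, by simp⟩
    (bddAbove_m n k u v)
  intro A hA B _ hAu _
  rw [subset_empty.1 hA, card_empty] at hAu
  omega

lemma le_A {u n k : ℕ} {E : Finset (Finset (Fin (n - 1)))} (h1 : ∀ s ∈ E, s.card = k)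
    (h2 : ∀ T ⊆ E, T.card = u → n - k ≤ (T.biUnion id).card) : E.card ≤ A u n k :=
  le_csSup (bddAbove_A u n k) ⟨E, h1, h2, rfl⟩

lemma exists_A {u n k : ℕ} (hu : 1 ≤ u) : ∃ E : Finset (Finset (Fin (n - 1))),
    (∀ s ∈ E, s.card = k) ∧ (∀ T ⊆ E, T.card = u → n - k ≤ (T.biUnion id).card) ∧
      E.card = A u n k := by
  refine Nat.sSup_mem (s := {c : ℕ | ∃ E : Finset (Finset (Fin (n - 1))),
    (∀ s ∈ E, s.card = k) ∧ (∀ T ⊆ E, T.card = u → n - k ≤ (T.biUnion id).card) ∧
      E.card = c}) ⟨0, ∅, by simp, ?_, by simp⟩ (bddAbove_A u n k)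
  intro T hT hTu
  rw [subset_empty.1 hT, card_empty] at hTu
  omega

/-- The lower bound, for all parameters. -/
theorem lower {n k u v : ℕ} (hk : 1 ≤ k) (hn : 1 ≤ n) (hu : 2 ≤ u) (huv : u ≤ v) :
    (n - 1).choose (k - 1) + A u n k ≤ m n k u v := by
  obtain ⟨E, h1, h2, h3⟩ := exists_A (u := u) (n := n) (k := k) (by omega)
  have hx : (⟨0, by omega⟩ : Fin n) ∈ (univ : Finset (Fin n)) := mem_univ _
  obtain ⟨E', h4, h5, h6⟩ := code_transfer (u := u) (w := n - k) (k := k)
    (Y := (univ : Finset (Fin (n - 1)))) (Z := (univ : Finset (Fin n)).erase ⟨0, by omega⟩)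
    (by rw [card_erase_of_mem hx, card_univ, card_univ, Fintype.card_fin, Fintype.card_fin])
    (E := E) (fun s hs => ⟨subset_univ _, h1 s hs⟩) h2
  obtain ⟨F, h7, h8, h9⟩ := code_lower (α := Fin n) (u := u) (v := v) hk hu huv
    (x := ⟨0, by omega⟩) (E := E')
    (fun s hs => ⟨(h4 s hs).2, fun h => (mem_erase.1 ((h4 s hs).1 h)).1 rfl⟩)
    (by rw [Fintype.card_fin]; exact h5)
  rw [Fintype.card_fin, h6, h3] at h9
  rw [← h9]
  exact le_m h7 (unionIntersecting_iff.2 h8)

/-- A family of `k`-sets avoiding a point of `Fin n` in which `u` distinct members have a union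
with `n - k` elements has at most `A u n k` members. -/
theorem card_le_A {n k u : ℕ} (x : Fin n) {E : Finset (Finset (Fin n))}
    (hE : ∀ s ∈ E, s.card = k ∧ x ∉ s) (hW : Wide u (n - k) E) : E.card ≤ A u n k := by
  obtain ⟨E', h4, h5, h6⟩ := code_transfer (u := u) (w := n - k) (k := k)
    (Z := (univ : Finset (Fin (n - 1)))) (Y := (univ : Finset (Fin n)).erase x)
    (by rw [card_erase_of_mem (mem_univ x), card_univ, card_univ, Fintype.card_fin,
      Fintype.card_fin])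
    (E := E) (fun s hs => ⟨fun y hy => mem_erase.2 ⟨fun h => (hE s hs).2 (h ▸ hy), mem_univ _⟩,
      (hE s hs).1⟩) hW
  rw [← h6]
  exact le_A (fun s hs => (h4 s hs).2) h5

theorem A_of_lt {n k u : ℕ} (hu : 2 ≤ u) (huk : u ≤ k) (hn : (u + 1) * k < n) :
    A u n k = u - 1 := by
  have hukk : (u + 1) * k = u * k + k := by ring
  have h2k : 2 * k ≤ u * k := Nat.mul_le_mul_right k hu
  apply le_antisymm
  · obtain ⟨E, h1, h2, h3⟩ := exists_A (u := u) (n := n) (k := k) (by omega)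
    rw [← h3]
    exact code_card_lt (w := n - k) h1 h2 (by omega)
  · obtain ⟨E, h1, h2, -⟩ := code_exists (u := u) (k := k) (by omega) huk
      (Y := (univ : Finset (Fin (n - 1)))) (by rw [card_univ, Fintype.card_fin]; omega)
    obtain ⟨E', h3, h4⟩ := exists_subset_card_eq (show u - 1 ≤ E.card by omega)
    rw [← h4]
    refine le_A (fun s hs => (h1 s (h3 hs)).2) (fun T hT hTu => ?_)
    have h5 := card_le_card hT
    omega

theorem le_A_of_le {n k u : ℕ} (hu : 2 ≤ u) (huk : u ≤ k) (hn : 2 * k ≤ n)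
    (hn' : n ≤ (u + 1) * k) : u ≤ A u n k := by
  have hukk : (u + 1) * k = u * k + k := by ring
  obtain ⟨E, h1, h2, h3⟩ := code_exists (u := u) (k := k) (by omega) huk
    (Y := (univ : Finset (Fin (n - 1)))) (by rw [card_univ, Fintype.card_fin]; omega)
  rw [card_univ, Fintype.card_fin] at h3
  refine h2.symm.le.trans (le_A (fun s hs => (h1 s hs).2) (fun T hT hTu => ?_))
  refine le_trans ?_ (h3 T hT hTu)
  omega

theorem A_of_eq {n k u : ℕ} (hu : 2 ≤ u) (huk : u ≤ k) (hn : n = (u + 1) * k) :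
    A u n k = u := by
  have hukk : (u + 1) * k = u * k + k := by ring
  have h2k : 2 * k ≤ u * k := Nat.mul_le_mul_right k hu
  apply le_antisymm
  · obtain ⟨E, h1, h2, h3⟩ := exists_A (u := u) (n := n) (k := k) (by omega)
    rw [← h3]
    refine code_card_eq (u := u) (k := k) hu (by omega) (Y := (univ : Finset (Fin (n - 1))))
      (by rw [card_univ, Fintype.card_fin]; omega) (fun s hs => ⟨subset_univ _, h1 s hs⟩) ?_
    have h4 : u * k = n - k := by omega
    rw [h4]
    exact h2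
  · exact le_A_of_le hu huk (by omega) hn.le

/-- `c * log k ≤ k` for large `k`. -/
theorem log_le (c : ℕ) : ∃ k₀ : ℕ, ∀ k : ℕ, k₀ ≤ k → (c : ℝ) * Real.log k ≤ k := by
  have h1 := (Real.isLittleO_log_id_atTop.comp_tendsto tendsto_natCast_atTop_atTop).bound
    (show (0 : ℝ) < 1 / (c + 1) by positivity)
  obtain ⟨k₀, hk₀⟩ := Filter.eventually_atTop.1 h1
  refine ⟨k₀, fun k hk => ?_⟩
  have h2 := hk₀ k hk
  simp only [Function.comp_apply, id_eq, Real.norm_eq_abs] at h2
  have hlog : 0 ≤ Real.log k := Real.log_natCast_nonneg k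
  have hk0 : (0 : ℝ) ≤ k := Nat.cast_nonneg k
  rw [abs_of_nonneg hlog, abs_of_nonneg hk0] at h2
  have h4 : ((c : ℝ) + 1) * Real.log k ≤ ((c : ℝ) + 1) * (1 / (c + 1) * k) :=
    mul_le_mul_of_nonneg_left h2 (by positivity)
  have h5 : ((c : ℝ) + 1) * (1 / (c + 1) * k) = k := by
    field_simp
  linarith

theorem A_two_three {n k : ℕ} (hk : 1 ≤ k) (hn : 14 * k ≤ 5 * n) (hn' : n < 3 * k) :
    A 2 n k = 3 := by
  apply le_antisymm
  · obtain ⟨E, h1, h2, h3⟩ := exists_A (u := 2) (n := n) (k := k) (by omega)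
    rw [← h3]
    exact code_three_le (n := n) (k := k) hk hn (Y := (univ : Finset (Fin (n - 1))))
      (by rw [card_univ, Fintype.card_fin]; omega) (fun s hs => ⟨subset_univ _, h1 s hs⟩) h2
  · obtain ⟨E, h1, h2, h3⟩ := code_three_exists (n := n) (k := k) (by omega) hn'
    exact h2.symm.le.trans (le_A h1 h3)

/-- The upper bound for `n = 2 k + a`, from the structural upper bound. -/
theorem upper_of_struct {u v k a : ℕ} (hu : 1 ≤ u)
    (h : ∀ F : Finset (Finset (Fin (2 * k + a))), (∀ s ∈ F, s.card = k) → UI u v F →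
      ∃ E₀ : Finset (Finset (Fin (2 * k + a - 1))), (∀ s ∈ E₀, s.card = k) ∧
        Wide u (k + a) E₀ ∧ F.card ≤ (2 * k + a - 1).choose (k - 1) + E₀.card) :
    m (2 * k + a) k u v ≤ (2 * k + a - 1).choose (k - 1) + A u (2 * k + a) k := by
  obtain ⟨F, hF, hUI, hFc⟩ := exists_m (n := 2 * k + a) (k := k) (u := u) (v := v) hu
  rw [← hFc]
  have h6 : 2 * k + a - k = k + a := by omega
  obtain ⟨E₀, h7, h8, h9⟩ := h F hF (unionIntersecting_iff.1 hUI)
  have h10 := le_A (u := u) (n := 2 * k + a) (k := k) h7 (by rw [h6]; exact h8)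
  omega

/-- The upper bound of the coding formula, `u ≥ 2`. -/
theorem upper_two (u v : ℕ) (hu : 2 ≤ u) (huv : u ≤ v) : ∃ k₀ : ℕ, ∀ k, k₀ ≤ k → ∀ n,
    2 * k + u + 1 ≤ n → m n k u v ≤ (n - 1).choose (k - 1) + A u n k := by
  obtain ⟨k₁, h1⟩ := upper u hu
  obtain ⟨C₂, k₂, hC2, h2⟩ := upper_code u hu
  obtain ⟨a₀, k₃, h3⟩ := upper_small u v hu huv
  obtain ⟨k₄, h4⟩ := log_le (C₂ * (1000 * v) ^ 2)
  obtain ⟨k₅, h5⟩ := upper_const_all u v a₀ (by omega) huv
  refine ⟨max (max k₁ k₂) (max (max k₃ k₄) (max (2 * v + u + 1) k₅)), fun k hk n hn => ?_⟩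
  have hk1 : k₁ ≤ k := by omega
  have hk2 : k₂ ≤ k := by omega
  have hk3 : k₃ ≤ k := by omega
  have hk4 : k₄ ≤ k := by omega
  have hk6 : k₅ ≤ k := by omega
  have hk5 : 2 * v + u + 1 ≤ k := by omega
  have hukk : (u + 1) * k = u * k + k := by ring
  have h2k : 2 * k ≤ u * k := Nat.mul_le_mul_right k hu
  obtain ⟨F, hF, hUI, hFc⟩ := exists_m (n := n) (k := k) (u := u) (v := v) (by omega)
  rcases Nat.lt_or_ge ((u + 1) * k) n with hlt | hge
  · rw [← hFc]
    have h5 := h1 k hk1 v huv (by omega) n hlt.le F hF (unionIntersecting_iff.1 hUI)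
    rw [if_pos hlt] at h5
    rw [A_of_lt hu (by omega) hlt]
    exact h5
  · obtain ⟨a, rfl⟩ : ∃ a, n = 2 * k + a := ⟨n - 2 * k, by omega⟩
    have ha : a ≤ (u - 1) * k := by
      have h3 : (u + 1) * k = (u - 1) * k + 2 * k := by
        rw [← add_mul]
        congr 1
        omega
      omega
    have h6 : 2 * k + a - k = k + a := by omega
    by_cases haa : a < a₀
    · exact upper_of_struct (by omega) (h5 k hk6 a (by omega) haa)
    by_cases hak : 1000 * a * v ≤ k
    · exact upper_of_struct (by omega) (h3 k hk3 a (by omega) hak)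
    · rw [← hFc]
      have hCa : (C₂ : ℝ) * (k * Real.log k) ≤ (a : ℝ) ^ 2 := by
        have h7 := h4 k hk4
        push_cast at h7
        have h8 : (k : ℝ) ≤ 1000 * a * v := by
          have : k ≤ 1000 * a * v := by omega
          exact_mod_cast this
        have hk0 : (0 : ℝ) ≤ k := Nat.cast_nonneg k
        have h9 : (k : ℝ) ^ 2 ≤ (1000 * a * v) ^ 2 := pow_le_pow_left₀ hk0 h8 2
        have hv0 : (0 : ℝ) < (1000 * v) ^ 2 := by
          have : (0 : ℝ) < v := by
            have : 0 < v := by omega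
            exact_mod_cast this
          positivity
        have h10 : (1000 * (v : ℝ)) ^ 2 * ((C₂ : ℝ) * (k * Real.log k)) ≤
            (1000 * (v : ℝ)) ^ 2 * (a : ℝ) ^ 2 := by
          calc (1000 * (v : ℝ)) ^ 2 * ((C₂ : ℝ) * (k * Real.log k))
              = (k : ℝ) * ((C₂ : ℝ) * (1000 * (v : ℝ)) ^ 2 * Real.log k) := by ring
            _ ≤ (k : ℝ) * (k : ℝ) := mul_le_mul_of_nonneg_left h7 hk0
            _ = (k : ℝ) ^ 2 := by ring
            _ ≤ (1000 * (a : ℝ) * (v : ℝ)) ^ 2 := h9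
            _ = (1000 * (v : ℝ)) ^ 2 * (a : ℝ) ^ 2 := by ring
        exact le_of_mul_le_mul_left h10 hv0
      obtain ⟨x, E₀, h7, h8, h9⟩ := h2 k hk2 v huv (by omega) a ha hCa F hF
        (unionIntersecting_iff.1 hUI)
      have h10 := card_le_A (n := 2 * k + a) (k := k) (u := u) x h7 (by rw [h6]; exact h8)
      omega

theorem A_one {n k : ℕ} (hn : 2 * k < n) : A 1 n k = 0 := by
  obtain ⟨E, h1, h2, h3⟩ := exists_A (u := 1) (n := n) (k := k) le_rfl
  have h4 := code_card_lt (u := 1) (w := n - k) h1 h2 (by omega)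
  omega

/-- The lower bound, `u = 1`. -/
theorem lower_one {n k v : ℕ} (hk : 1 ≤ k) (hn : 1 ≤ n) (hv : 1 ≤ v) :
    (n - 1).choose (k - 1) ≤ m n k 1 v := by
  have hne : Nonempty (Fin n) := ⟨⟨0, by omega⟩⟩
  obtain ⟨F, h3, h4, h5⟩ := lower_basic (α := Fin n) (u := 1) (v := v) (k := k) hk
    le_rfl hv (Nat.zero_le _)
  rw [Fintype.card_fin] at h5
  have h6 := le_m h3 (unionIntersecting_iff.2 h4)
  omega

/-- The upper bound, `u = 1`. -/
theorem upper_one (v : ℕ) (hv : 1 ≤ v) : ∃ k₀ : ℕ, ∀ k, k₀ ≤ k → ∀ n,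
    2 * k + 1 + 1 ≤ n → m n k 1 v ≤ (n - 1).choose (k - 1) + A 1 n k := by
  obtain ⟨k₁, h1⟩ := degree_num v
  obtain ⟨k₂, h2⟩ := upper_const_all 1 v 7 le_rfl hv
  refine ⟨max (max k₁ k₂) 1, fun k hk n hn => ?_⟩
  have hk1 : k₁ ≤ k := by omega
  have hk2 : k₂ ≤ k := by omega
  rcases Nat.lt_or_ge n (2 * k + 7) with hlt | hge
  · obtain ⟨a, rfl⟩ : ∃ a, n = 2 * k + a := ⟨n - 2 * k, by omega⟩
    exact upper_of_struct le_rfl (h2 k hk2 a (by omega) (by omega))
  · obtain ⟨F, hF, hUI, hFc⟩ := exists_m (n := n) (k := k) (u := 1) (v := v) le_rfl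
    rw [← hFc]
    refine le_trans ?_ (Nat.le_add_right _ _)
    exact degree_upper (by omega) (by omega) hv (h1 k hk1 n hge) F hF
      (unionIntersecting_iff.1 hUI)

/-- For `n ≤ 2 k + 1` and `u, v ≥ 2` all `k`-sets are allowed. -/
theorem m_of_le {n k u v : ℕ} (hu : 2 ≤ u) (hv : 2 ≤ v) (hn : n ≤ 2 * k + 1) :
    m n k u v = n.choose k := by
  apply le_antisymm
  · obtain ⟨F, hF, -, hFc⟩ := exists_m (n := n) (k := k) (u := u) (v := v) (by omega)
    rw [← hFc]
    have h1 : F ⊆ powersetCard k univ := fun s hs => mem_powersetCard.2 ⟨subset_univ _, hF s hs⟩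
    have h2 := card_le_card h1
    rwa [card_powersetCard, card_univ, Fintype.card_fin] at h2
  · have h1 := ui_of_small (k := k) hu hv (Y := (univ : Finset (Fin n)))
      (by rw [card_univ, Fintype.card_fin]; exact hn)
    have h2 := le_m (fun s hs => (mem_powersetCard.1 hs).2) (unionIntersecting_iff.2 h1)
    rwa [card_powersetCard, card_univ, Fintype.card_fin] at h2

/-- For `n = 2 k + 2`, `u = 2`: all `k`-sets which avoid a point. -/
theorem m_two {n k v : ℕ} (hv : 2 ≤ v) (hvk : 2 * (v - 1) ≤ k + 2) (hn : n = 2 * k + 2) :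
    m n k 2 v = (n - 1).choose k := by
  subst hn
  have e : 2 * k + 2 - 1 = 2 * k + 1 := by omega
  rw [e]
  apply le_antisymm
  · obtain ⟨F, hF, hUI, hFc⟩ := exists_m (n := 2 * k + 2) (k := k) (u := 2) (v := v) (by omega)
    rw [← hFc]
    exact bal_two hv hvk (Fintype.card_fin _) hF (unionIntersecting_iff.1 hUI)
  · have hx : (⟨0, by omega⟩ : Fin (2 * k + 2)) ∈ (univ : Finset (Fin (2 * k + 2))) := mem_univ _
    have h1 := ui_of_small (k := k) le_rfl hv
      (Y := (univ : Finset (Fin (2 * k + 2))).erase ⟨0, by omega⟩)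
      (by rw [card_erase_of_mem hx, card_univ, Fintype.card_fin]; omega)
    have h2 := le_m (fun s hs => (mem_powersetCard.1 hs).2) (unionIntersecting_iff.2 h1)
    rw [card_powersetCard, card_erase_of_mem hx, card_univ, Fintype.card_fin, e] at h2
    exact h2

/-- For all fixed `1 ≤ u ≤ v` there is `k₀` such that for all `k ≥ k₀` and all `n`:
`m(n,k,u,v) = C(n-1,k-1) + A_u(n,k)` if `n ≥ 2k+u+1`; `m(n,k,u,v) = C(n,k)` if `u ≥ 2` and
`n ≤ 2k+1`; `m(n,k,2,v) = C(n-1,k)` if `n = 2k+2`. Moreover `A_u(n,k) = u-1` if `n > (u+1)k`,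
and, for `u ≥ 2`, `A_u(n,k) = u` if `n = (u+1)k`, `A_u(n,k) ≥ u` if `2k ≤ n ≤ (u+1)k`, and
`A_2(n,k) = 3` if `14k/5 ≤ n < 3k`. -/
theorem result (u v : ℕ) (hu : 1 ≤ u) (huv : u ≤ v) : ∃ k₀ : ℕ, ∀ k, k₀ ≤ k → ∀ n,
    (2 * k + u + 1 ≤ n → m n k u v = (n - 1).choose (k - 1) + A u n k) ∧
    (2 ≤ u → n ≤ 2 * k + 1 → m n k u v = n.choose k) ∧
    (u = 2 → n = 2 * k + 2 → m n k u v = (n - 1).choose k) ∧
    ((u + 1) * k < n → A u n k = u - 1) ∧
    (2 ≤ u → n = (u + 1) * k → A u n k = u) ∧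
    (2 ≤ u → 2 * k ≤ n → n ≤ (u + 1) * k → u ≤ A u n k) ∧
    (u = 2 → 14 * k ≤ 5 * n → n < 3 * k → A u n k = 3) := by
  have hmain : ∃ k₀ : ℕ, ∀ k, k₀ ≤ k → ∀ n, 2 * k + u + 1 ≤ n →
      m n k u v = (n - 1).choose (k - 1) + A u n k := by
    rcases Nat.lt_or_ge u 2 with h | h
    · obtain rfl : u = 1 := by omega
      obtain ⟨k₀, h1⟩ := upper_one v huv
      refine ⟨max k₀ 1, fun k hk n hn => le_antisymm
        (h1 k (le_trans (le_max_left _ _) hk) n hn) ?_⟩
      rw [A_one (by omega), Nat.add_zero]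
      exact lower_one (le_trans (le_max_right _ _) hk) (by omega) huv
    · obtain ⟨k₀, h1⟩ := upper_two u v h huv
      refine ⟨max k₀ 1, fun k hk n hn => le_antisymm
        (h1 k (le_trans (le_max_left _ _) hk) n hn) ?_⟩
      exact lower (le_trans (le_max_right _ _) hk) (by omega) h huv
  obtain ⟨k₀, h1⟩ := hmain
  refine ⟨max k₀ (u + 2 * v + 1), fun k hk n => ?_⟩
  have hk1 : k₀ ≤ k := le_trans (le_max_left _ _) hk
  have hk2 : u + 2 * v + 1 ≤ k := le_trans (le_max_right _ _) hk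
  refine ⟨h1 k hk1 n, fun hu2 hn => m_of_le hu2 (by omega) hn, fun hu2 hn => ?_, fun hn => ?_,
    fun hu2 hn => A_of_eq hu2 (by omega) hn, fun hu2 hn hn' => le_A_of_le hu2 (by omega) hn hn',
    fun hu2 hn hn' => ?_⟩
  · subst hu2
    exact m_two huv (by omega) hn
  · rcases Nat.lt_or_ge u 2 with h | h
    · obtain rfl : u = 1 := by omega
      exact A_one (by omega)
    · exact A_of_lt h (by omega) hn
  · subst hu2
    exact A_two_three (by omega) hn hn'

end Pool.Agent.Results.MP_fffc5a_co.LargeKComplete
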