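import Mathlib
import Pool.Agent.Lib.MP_fffc5a_co.T.Upper
import Pool.Agent.Lib.MP_fffc5a_co.T.Low
import Pool.Agent.Lib.MP_fffc5a_co.Lower

/-!
The case `u = 1`: for `n ≥ 2k + 2` the value `C(n-1,k-1)` is right as long as
`10⁶ (v - 1) ≤ min (C(n-k-1,k-1), C(n-k-1,k))`, and it is wrong for
`v - 1 ≥ min (C(n-k-1,k-1), C(n-k-1,k))`.
-/

set_option autoImplicit false

open Finset

namespace Pool.Agent.Results.MP_fffc5a_co.SharpDegree

open Pool.Agent.Lib.MP_fffc5a_co

/-- `F` is `(u, v)`-union-intersecting: the union of any `u` distinct members meets the union of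
any `v` distinct members. -/
def UnionIntersecting {n : ℕ} (u v : ℕ) (F : Finset (Finset (Fin n))) : Prop :=
  ∀ A ⊆ F, ∀ B ⊆ F, A.card = u → B.card = v → ((A.biUnion id) ∩ (B.biUnion id)).Nonempty

/-- `m n k u v` is the maximum size of a `(u, v)`-union-intersecting family of `k`-element subsets
of an `n`-element set. -/
noncomputable def m (n k u v : ℕ) : ℕ :=
  sSup {c : ℕ | ∃ F : Finset (Finset (Fin n)),
    (∀ s ∈ F, s.card = k) ∧ UnionIntersecting u v F ∧ F.card = c}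

lemma unionIntersecting_iff {n u v : ℕ} {F : Finset (Finset (Fin n))} :
    UnionIntersecting u v F ↔ UI u v F := by
  unfold UnionIntersecting UI
  simp only [not_disjoint_iff_nonempty_inter]

lemma le_m {n k v c : ℕ} (h : ∃ F : Finset (Finset (Fin n)), (∀ s ∈ F, s.card = k) ∧ UI 1 v F ∧
    c ≤ F.card) : c ≤ m n k 1 v := by
  obtain ⟨F, h1, h2, h3⟩ := h
  refine h3.trans (le_csSup ?_ ⟨F, h1, unionIntersecting_iff.2 h2, rfl⟩)
  refine ⟨Fintype.card (Finset (Fin n)), ?_⟩
  rintro c ⟨G, -, -, rfl⟩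
  exact card_le_univ G

/-- The threshold in `v` for `m(n,k,1,v) = C(n-1,k-1)` is
`min (C(n-k-1,k-1), C(n-k-1,k))` up to the factor `10⁶`, for all `n ≥ 2k + 2`. -/
theorem result :
    (∀ n k v : ℕ, 1 ≤ k → 2 * k + 2 ≤ n → 1 ≤ v →
      10 ^ 6 * (v - 1) ≤ min ((n - k - 1).choose (k - 1)) ((n - k - 1).choose k) →
      m n k 1 v = (n - 1).choose (k - 1)) ∧
    (∀ n k v : ℕ, 1 ≤ k → 2 * k + 1 ≤ n →
      min ((n - k - 1).choose (k - 1)) ((n - k - 1).choose k) ≤ v - 1 →
      (n - 1).choose (k - 1) < m n k 1 v) := by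
  refine ⟨fun n k v hk hn hv h => ?_, fun n k v hk hn h => ?_⟩
  · apply IsGreatest.csSup_eq
    constructor
    · have hne : Nonempty (Fin n) := ⟨⟨0, by omega⟩⟩
      obtain ⟨F, h3, h4, h5⟩ := lower_basic (α := Fin n) (u := 1) (v := v) (k := k) hk
        le_rfl hv (Nat.zero_le _)
      rw [Fintype.card_fin] at h5
      exact ⟨F, h3, unionIntersecting_iff.2 h4, h5⟩
    · rintro c ⟨F, h1, h2, rfl⟩
      exact T.upper hk hn hv h F h1 (unionIntersecting_iff.1 h2)
  · rcases min_le_iff.1 h with h1 | h1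
    · exact le_m (T.low_star hk hn h1)
    · exact le_m (T.low_costar hk hn h1)

end Pool.Agent.Results.MP_fffc5a_co.SharpDegree
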