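import Mathlib
import Pool.Agent.Lib.MP_fffc5a_co.V.Upper
import Pool.Agent.Lib.MP_fffc5a_co.V.Low
import Pool.Agent.Lib.MP_fffc5a_co.Lower
import Pool.Agent.Lib.MP_fffc5a_co.Transfer
import Pool.Agent.Lib.MP_fffc5a_co.W.UpperG
import Pool.Agent.Lib.MP_fffc5a_co.W.UpperW
import Pool.Agent.Lib.MP_fffc5a_co.W.LowG
import Pool.Agent.Lib.MP_fffc5a_co.W.HalfStar
import Pool.Agent.Lib.MP_fffc5a_co.W.HalfNumB

/-!
The case `u ≥ 2` with large `v`: the value of `m(n,k,u,v)` near the first threshold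
`T = C(n-uk-1,k-1)` and at all further levels.
-/

set_option autoImplicit false

open Finset

namespace Pool.Agent.Results.MP_fffc5a_co.ThresholdExact

open Pool.Agent.Lib.MP_fffc5a_co

/-- `F` is `(u, v)`-union-intersecting: the union of any `u` distinct members meets the union of
any `v` distinct members. -/
def UnionIntersecting {n : ℕ} (u v : ℕ) (F : Finset (Finset (Fin n))) : Prop :=
  ∀ A ⊆ F, ∀ B ⊆ F, A.card = u → B.card = v → ((A.biUnion id) ∩ (B.biUnion id)).Nonempty

/-- `m n k u v` is the maximum size of a `(u, v)`-union-intersecting family of `k`-element subsets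
of an `n`-element set. -/
noncomputable def m (n k u v : ℕ) : ℕ :=
  sSup {c : ℕ | ∃ F : Finset (Finset (Fin n)),
    (∀ s ∈ F, s.card = k) ∧ UnionIntersecting u v F ∧ F.card = c}

/-- `A u i n k` is the maximum size of a family of `k`-element subsets of an `(n - 1)`-element set in
which the union of any `u` distinct members has at least `n - k - i` elements. -/
noncomputable def A (u i n k : ℕ) : ℕ :=
  sSup {c : ℕ | ∃ E : Finset (Finset (Fin (n - 1))),
    (∀ s ∈ E, s.card = k) ∧ (∀ T ⊆ E, T.card = u → n - k ≤ (T.biUnion id).card + i) ∧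
      E.card = c}

lemma unionIntersecting_iff {n u v : ℕ} {F : Finset (Finset (Fin n))} :
    UnionIntersecting u v F ↔ UI u v F := by
  unfold UnionIntersecting UI
  simp only [not_disjoint_iff_nonempty_inter]

lemma le_m {n k u v c : ℕ} (h : ∃ F : Finset (Finset (Fin n)), (∀ s ∈ F, s.card = k) ∧ UI u v F ∧
    c ≤ F.card) : c ≤ m n k u v := by
  obtain ⟨F, h1, h2, h3⟩ := h
  refine h3.trans (le_csSup ?_ ⟨F, h1, unionIntersecting_iff.2 h2, rfl⟩)
  refine ⟨Fintype.card (Finset (Fin n)), ?_⟩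
  rintro c ⟨G, -, -, rfl⟩
  exact card_le_univ G

lemma m_le {n k u v c : ℕ} (hu : 1 ≤ u) (h : ∀ F : Finset (Finset (Fin n)), (∀ s ∈ F, s.card = k) →
    UI u v F → F.card ≤ c) : m n k u v ≤ c := by
  refine csSup_le ⟨0, ∅, by simp, ?_, by simp⟩ ?_
  · intro A hA B _ hAu _
    rw [subset_empty.1 hA, card_empty] at hAu
    omega
  · rintro d ⟨F, h1, h2, rfl⟩
    exact h F h1 (unionIntersecting_iff.1 h2)

lemma bddAbove_A (u i n k : ℕ) : BddAbove {c : ℕ | ∃ E : Finset (Finset (Fin (n - 1))),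
    (∀ s ∈ E, s.card = k) ∧ (∀ T ⊆ E, T.card = u → n - k ≤ (T.biUnion id).card + i) ∧
      E.card = c} := by
  refine ⟨Fintype.card (Finset (Fin (n - 1))), ?_⟩
  rintro c ⟨F, -, -, rfl⟩
  exact card_le_univ F

lemma exists_A {u i n k : ℕ} (hu : 1 ≤ u) : ∃ E : Finset (Finset (Fin (n - 1))),
    (∀ s ∈ E, s.card = k) ∧ (∀ T ⊆ E, T.card = u → n - k ≤ (T.biUnion id).card + i) ∧
      E.card = A u i n k := by
  refine Nat.sSup_mem (s := {c : ℕ | ∃ E : Finset (Finset (Fin (n - 1))),
    (∀ s ∈ E, s.card = k) ∧ (∀ T ⊆ E, T.card = u → n - k ≤ (T.biUnion id).card + i) ∧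
      E.card = c}) ⟨0, ∅, by simp, ?_, by simp⟩ (bddAbove_A u i n k)
  intro T hT hTu
  rw [subset_empty.1 hT, card_empty] at hTu
  omega

/-- A family of `k`-sets avoiding a point of `Fin n` in which `u` distinct members have a union
with at least `n - k - i` elements has at most `A u i n k` members. -/
theorem card_le_A {n k u i : ℕ} (x : Fin n) {E : Finset (Finset (Fin n))}
    (hE : ∀ s ∈ E, s.card = k ∧ x ∉ s)
    (hW : ∀ T ⊆ E, T.card = u → n - k ≤ (T.biUnion id).card + i) : E.card ≤ A u i n k := by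
  have hW' : Wide u (n - k - i) E := fun T hT hTu => by
    have := hW T hT hTu
    omega
  obtain ⟨E', h4, h5, h6⟩ := code_transfer (u := u) (w := n - k - i) (k := k)
    (Z := (univ : Finset (Fin (n - 1)))) (Y := (univ : Finset (Fin n)).erase x)
    (by rw [card_erase_of_mem (mem_univ x), card_univ, card_univ, Fintype.card_fin,
      Fintype.card_fin])
    (E := E) (fun s hs => ⟨fun y hy => mem_erase.2 ⟨fun h => (hE s hs).2 (h ▸ hy), mem_univ _⟩,
      (hE s hs).1⟩) hW'
  rw [← h6]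
  refine le_csSup (bddAbove_A u i n k) ⟨E', fun s hs => (h4 s hs).2, fun T hT hTu => ?_, rfl⟩
  have := h5 T hT hTu
  omega

/-- The lower bound at the level `i`, for all parameters. -/
theorem lower_level {n k u v i : ℕ} (hk : 1 ≤ k) (hn : 1 ≤ n) (hu : 1 ≤ u)
    (hv : (k - 1 + i).choose (k - 1) + A u i n k ≤ v) :
    (n - 1).choose (k - 1) + A u i n k ≤ m n k u v := by
  obtain ⟨E, h1, h2, h3⟩ := exists_A (u := u) (i := i) (n := n) (k := k) hu
  have hx : (⟨0, by omega⟩ : Fin n) ∈ (univ : Finset (Fin n)) := mem_univ _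
  have hW : Wide u (n - k - i) E := fun T hT hTu => by
    have := h2 T hT hTu
    omega
  obtain ⟨E', h4, h5, h6⟩ := code_transfer (u := u) (w := n - k - i) (k := k)
    (Y := (univ : Finset (Fin (n - 1)))) (Z := (univ : Finset (Fin n)).erase ⟨0, by omega⟩)
    (by rw [card_erase_of_mem hx, card_univ, card_univ, Fintype.card_fin, Fintype.card_fin])
    (E := E) (fun s hs => ⟨subset_univ _, h1 s hs⟩) hW
  obtain ⟨F, h7, h8, h9⟩ := W.low_level (α := Fin n) (u := u) (v := v) (k := k) (i := i) hk hu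
    (x := ⟨0, by omega⟩) (E := E')
    (fun s hs => ⟨(h4 s hs).2, fun h => (mem_erase.1 ((h4 s hs).1 h)).1 rfl⟩)
    (fun T hT hTu => by
      rw [Fintype.card_fin]
      have := h5 T hT hTu
      omega) (by rw [h6, h3]; exact hv)
  rw [Fintype.card_fin, h6, h3] at h9
  exact le_m ⟨F, h7, h8, h9.ge⟩

lemma choose_ge (a b : ℕ) (hb : 1 ≤ b) : a + 1 ≤ (a + b).choose b := by
  obtain ⟨c, rfl⟩ : ∃ c, b = c + 1 := ⟨b - 1, by omega⟩
  induction a with
  | zero => simp
  | succ a ih =>
    have h1 : a + 1 + (c + 1) = (a + (c + 1)) + 1 := by omega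
    rw [h1, Nat.choose_succ_succ']
    have h2 : 1 ≤ (a + (c + 1)).choose c := Nat.choose_pos (by omega)
    omega

/-- The star and `u - 1` further sets. -/
theorem lower_star {n k u v : ℕ} (hu : 2 ≤ u) (hk : 1 ≤ k) (hn : (u + 1) * k < n) (huv : u ≤ v) :
    (n - 1).choose (k - 1) + (u - 1) ≤ m n k u v := by
  have h3 : 3 * k ≤ (u + 1) * k := Nat.mul_le_mul_right _ (by omega)
  have h4 : u + 1 ≤ (u + 1) * k := Nat.le_mul_of_pos_right _ hk
  have hne : Nonempty (Fin n) := ⟨⟨0, by omega⟩⟩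
  obtain ⟨F, h5, h6, h7⟩ := lower_basic (α := Fin n) (u := u) (v := v) (k := k) hk
    (by omega) huv (by
      rw [Fintype.card_fin]
      have h8 := choose_ge (n - 1 - k) k hk
      have h9 : n - 1 - k + k = n - 1 := by omega
      rw [h9] at h8
      have h10 : (u + 1) * k = u * k + k := by ring
      have h11 : u ≤ u * k := Nat.le_mul_of_pos_right _ hk
      omega)
  rw [Fintype.card_fin] at h7
  exact le_m ⟨F, h5, h6, h7.ge⟩

/-- The lower bound near the first threshold. -/
theorem lower_exact {n k u v : ℕ} (hu : 2 ≤ u) (huk : u ≤ k) (hn : (u + 1) * k < n)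
    (huv : u ≤ v) :
    (n - 1).choose (k - 1) +
      min ((n - 1) / k) (u - 1 + (v - (n - u * k - 1).choose (k - 1))) ≤ m n k u v := by
  have hk : 1 ≤ k := by omega
  have hukk : (u + 1) * k = u * k + k := by ring
  have hρ : u ≤ (n - 1) / k := by
    rw [Nat.le_div_iff_mul_le hk]
    omega
  rcases le_or_gt v ((n - u * k - 1).choose (k - 1)) with h | h
  · have h1 : v - (n - u * k - 1).choose (k - 1) = 0 := by omega
    rw [h1, Nat.add_zero, min_eq_right (by omega)]
    exact lower_star hu hk hn huv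
  · obtain ⟨T, hT⟩ : ∃ T, T = (n - u * k - 1).choose (k - 1) := ⟨_, rfl⟩
    have hTk : k ≤ T := by
      have h2 : k.choose (k - 1) ≤ T := by
        rw [hT]
        exact Nat.choose_le_choose _ (by omega)
      have h3 : k.choose (k - 1) = k := by
        obtain ⟨j, rfl⟩ : ∃ j, k = j + 1 := ⟨k - 1, by omega⟩
        rw [Nat.add_sub_cancel]
        exact Nat.choose_succ_self_right j
      omega
    rw [← hT] at h ⊢
    obtain ⟨r, hr⟩ : ∃ r, r = min ((n - 1) / k) (u - 1 + (v - T)) := ⟨_, rfl⟩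
    have hr1 : r ≤ (n - 1) / k := by rw [hr]; exact min_le_left _ _
    have hr2 : r ≤ u - 1 + (v - T) := by rw [hr]; exact min_le_right _ _
    have hur : u ≤ r := by
      rw [hr]
      exact le_min hρ (by omega)
    have e : n - 1 - u * k = n - u * k - 1 := by omega
    obtain ⟨F, h5, h6, h7⟩ := W.low_disj (n := n) (k := k) (u := u) (v := v) (r := r) hk (by omega) hur
      ((Nat.mul_le_mul_right k hr1).trans (Nat.div_mul_le_self _ _)) (by omega)
      (by rw [e, ← hT]; omega)
    rw [← hr]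
    exact le_m ⟨F, h5, h6, h7.ge⟩

/-- See the claim. -/
theorem result :
    (∀ u : ℕ, 2 ≤ u → ∃ C : ℕ,
      (∀ n k v i : ℕ, C ≤ k → 3 * k < n → u ≤ v →
        C * (v - 1) * (n - 1).choose (k - 1) ^ (u - 1) ≤ (n - k - 1).choose (k - 1) ^ u →
        k * (v - 1) ≤ (k - C) * (k + i).choose (k - 1) →
        m n k u v ≤ (n - 1).choose (k - 1) + A u i n k) ∧
      (∀ n k v : ℕ, C ≤ k → (u + 1) * k < n → C * n ≤ k ^ 2 → u ≤ v →
        2 * (v - (n - u * k - 1).choose (k - 1)) ≤ (n - u * k - 1).choose (k - 2) →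
        m n k u v = (n - 1).choose (k - 1) +
          min ((n - 1) / k) (u - 1 + (v - (n - u * k - 1).choose (k - 1)))) ∧
      (∀ n k v : ℕ, 1 ≤ k → (u + 1) * k < n → u ≤ v →
        C * (v - 1) ≤ (n - u * k - 1).choose (k - 1) →
        m n k u v = (n - 1).choose (k - 1) + (u - 1)) ∧
      (∀ n k v : ℕ, 2 ≤ k → C * k ^ 2 ≤ n →
        3 * (n - u * k - 1).choose (k - 1) ≤ 4 * (v - 1) →
        (n - 1).choose (k - 1) + u ≤ m n k u v)) ∧
    (∀ n k u v i : ℕ, 1 ≤ k → 1 ≤ n → 1 ≤ u → (k - 1 + i).choose (k - 1) + A u i n k ≤ v →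
      (n - 1).choose (k - 1) + A u i n k ≤ m n k u v) ∧
    (∀ n k u v : ℕ, 1 ≤ k → 1 ≤ u → u ≤ v → (u + 1) * k ≤ n →
      (n - u * k - 1).choose (k - 1) ≤ v - 1 →
      (n - 1).choose (k - 1) + u ≤ m n k u v) := by
  refine ⟨fun u hu => ?_, fun n k u v i hk hn hu hv => lower_level hk hn hu hv,
    fun n k u v hk hu huv hn h => le_m (V.low_many hk hu huv hn h)⟩
  obtain ⟨C1, hC11, hC1⟩ := W.upper_g hu
  obtain ⟨C2, hC2⟩ := W.upper_w hu
  obtain ⟨C3, hC3⟩ := V.upper hu
  obtain ⟨C4, hC4⟩ := W.half_num_b u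
  refine ⟨max (max C1 C2) (max (max C3 C4) u), fun n k v i hk hn huv h1 h2 => ?_,
    fun n k v hk hn hnk huv h => ?_, fun n k v hk hn huv h => ?_, fun n k v hk hn hv => ?_⟩
  · have hC : C1 ≤ max (max C1 C2) (max (max C3 C4) u) :=
      (le_max_left _ _).trans (le_max_left _ _)
    obtain ⟨a, rfl⟩ : ∃ a, n = 2 * k + a := ⟨n - 2 * k, by omega⟩
    have e : 2 * k + a - k - 1 = k + a - 1 := by omega
    rw [e] at h1
    refine m_le (by omega) fun F hF hUI => ?_
    obtain ⟨x, E, h3, h4, h5⟩ := hC1 k a v i (hC.trans hk) (by omega) huv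
      (h2.trans (Nat.mul_le_mul_right _ (by omega)))
      (le_trans (Nat.mul_le_mul_right _ (Nat.mul_le_mul_right _ hC)) h1) F hF hUI
    refine h5.trans (Nat.add_le_add_left (card_le_A x h3 fun T hT hTu => ?_) _)
    have := h4 T hT hTu
    omega
  · have hC : C2 ≤ max (max C1 C2) (max (max C3 C4) u) :=
      (le_max_right _ _).trans (le_max_left _ _)
    have huC : u ≤ max (max C1 C2) (max (max C3 C4) u) :=
      (le_max_right _ _).trans (le_max_right _ _)
    have hukk : (u + 1) * k = u * k + k := by ring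
    have h2k : 2 * k ≤ u * k := Nat.mul_le_mul_right k hu
    refine le_antisymm ?_ (lower_exact hu (huC.trans hk) hn huv)
    obtain ⟨b, hb⟩ : ∃ b, b = n - (u + 1) * k := ⟨_, rfl⟩
    obtain ⟨a, rfl⟩ : ∃ a, n = 2 * k + a := ⟨n - 2 * k, by omega⟩
    have e : 2 * k + a - u * k - 1 = k - 1 + b := by omega
    rw [e] at h ⊢
    refine m_le (by omega) fun F hF hUI => ?_
    exact hC2 k a b v (hC.trans hk) (by omega) huv (by omega)
      (le_trans (Nat.mul_le_mul_right _ hC) hnk) h F hF hUI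
  · have hC : C3 ≤ max (max C1 C2) (max (max C3 C4) u) :=
      ((le_max_left _ _).trans (le_max_left _ _)).trans (le_max_right _ _)
    refine le_antisymm ?_ (lower_star hu hk hn huv)
    exact m_le (by omega) fun F hF hUI => hC3 n k v hk hn huv
      (le_trans (Nat.mul_le_mul_right _ hC) h) F hF hUI
  · have hC : C4 ≤ max (max C1 C2) (max (max C3 C4) u) :=
      ((le_max_right _ _).trans (le_max_left _ _)).trans (le_max_right _ _)
    obtain ⟨z, h1, h2, h3, h4⟩ := hC4 n k hk (le_trans (Nat.mul_le_mul_right _ hC) hn)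
    have huC : u ≤ max (max C1 C2) (max (max C3 C4) u) :=
      (le_max_right _ _).trans (le_max_right _ _)
    have hkn : k ≤ n := by
      refine le_trans ?_ hn
      have h5 : 2 * k ^ 2 ≤ max (max C1 C2) (max (max C3 C4) u) * k ^ 2 :=
        Nat.mul_le_mul_right _ (hu.trans huC)
      nlinarith
    obtain ⟨F, h5, h6, h7⟩ := W.half_star (n := n) (k := k) (u := u) (v := v) (z := z) hk h1 hkn
      (by omega) (by omega) (by omega) h4
    exact le_m ⟨F, h5, W.ui_mono (by omega) h6, h7⟩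

end Pool.Agent.Results.MP_fffc5a_co.ThresholdExact
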